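import Mathlib
import Pool.Agent.H31.XCE.Targets

/-!
# Row IVP: intervals and periods
-/

set_option autoImplicit false

namespace Pool.Agent.H65.XCE

open Finset Pool.Agent.H31.XCE

theorem period_sum {Φ : ℕ → ℝ} {K : ℕ} (h : ∀ y, Φ (y + K) = Φ y) (Y : ℕ) :
    ∑ y ∈ Ico Y (Y + K), Φ y = ∑ y ∈ range K, Φ y := by
  induction Y with
  | zero => rw [zero_add, range_eq_Ico]
  | succ Y ih =>
    rw [← ih]
    have h1 : ∑ y ∈ Ico Y (Y + K + 1), Φ y = ∑ y ∈ Ico Y (Y + K), Φ y + Φ (Y + K) :=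
      sum_Ico_succ_top (by omega) _
    have h2 : ∑ y ∈ Ico Y (Y + K + 1), Φ y = Φ Y + ∑ y ∈ Ico (Y + 1) (Y + K + 1), Φ y :=
      sum_eq_sum_Ico_succ_bot (by omega) _
    have h3 : Y + 1 + K = Y + K + 1 := by omega
    rw [h3]
    have h4 := h Y
    linarith

theorem periods_sum {Φ : ℕ → ℝ} {K : ℕ} (h : ∀ y, Φ (y + K) = Φ y) (q Y : ℕ) :
    ∑ y ∈ Ico Y (Y + K * q), Φ y = q * ∑ y ∈ range K, Φ y := by
  induction q with
  | zero => simp
  | succ q ih =>
    have h1 : ∑ y ∈ Ico Y (Y + K * (q + 1)), Φ y =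
        ∑ y ∈ Ico Y (Y + K * q), Φ y + ∑ y ∈ Ico (Y + K * q) (Y + K * q + K), Φ y := by
      rw [sum_Ico_consecutive _ (by omega) (by omega)]
      congr 2
      ring
    rw [h1, ih, period_sum h]
    push_cast
    ring

theorem pf_IVP : T_IVP := by
  intro Φ K hK h
  constructor
  · intro Y L hb hs
    have hL : L = K * (L / K) + L % K := (Nat.div_add_mod L K).symm
    have h1 : ∑ y ∈ Ico Y (Y + L), Φ y = ∑ y ∈ Ico Y (Y + K * (L / K)), Φ y +
        ∑ y ∈ Ico (Y + K * (L / K)) (Y + L), Φ y :=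
      (sum_Ico_consecutive _ (by omega) (by omega)).symm
    rw [h1, periods_sum h, hs, mul_zero, zero_add]
    calc |∑ y ∈ Ico (Y + K * (L / K)) (Y + L), Φ y|
        ≤ ∑ y ∈ Ico (Y + K * (L / K)) (Y + L), |Φ y| := abs_sum_le_sum_abs _ _
      _ ≤ ∑ _y ∈ Ico (Y + K * (L / K)) (Y + L), (1 : ℝ) := sum_le_sum fun y _ => hb y
      _ = ((L % K : ℕ) : ℝ) := by
          rw [sum_const, Nat.card_Ico, nsmul_eq_mul, mul_one]
          congr 1
          omega
      _ ≤ K := by exact_mod_cast (Nat.mod_lt _ hK).le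
  · intro Y L hb
    have hlt : L % K < K := Nat.mod_lt _ hK
    have hL : L = K * (L / K) + L % K := (Nat.div_add_mod L K).symm
    have hs : 0 ≤ ∑ y ∈ range K, Φ y := sum_nonneg fun y _ => hb y
    have h1 : ∑ y ∈ Ico Y (Y + L), Φ y ≤ ∑ y ∈ Ico Y (Y + K * (L / K + 1)), Φ y := by
      refine sum_le_sum_of_subset_of_nonneg (Ico_subset_Ico le_rfl ?_) fun y _ _ => hb y
      rw [mul_add, mul_one]
      omega
    refine h1.trans ?_
    rw [periods_sum h]
    refine mul_le_mul_of_nonneg_right ?_ hs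
    push_cast
    have h2 : ((L / K : ℕ) : ℝ) ≤ (L : ℝ) / K := Nat.cast_div_le
    linarith

end Pool.Agent.H65.XCE
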