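import Mathlib
import Pool.Agent.H31.XCE.Targets

/-!
# Row MAJ: the mean of the majorant over a period
-/

set_option autoImplicit false

namespace Pool.Agent.H65.XCE

open Finset Pool.Agent.H31.XCE

open Classical in
/-- the number of solutions of the congruences -/
theorem count_le {n : ℕ} (ρ : Fin n → ℕ) (ν : Fin n → ℤ) (S : ℕ) (hS : 1 ≤ S)
    (hρ : ∀ x, (ρ x).Prime ∧ S < ρ x) (U : Finset (Fin n)) :
    (((range (∏ p ∈ univ.image ρ, p)).filter fun y : ℕ => ∀ x ∈ U, ((ρ x : ℕ) : ℤ) ∣ S * (y : ℤ) + ν x).card : ℝ) ≤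
      ((∏ p ∈ univ.image ρ, p : ℕ) : ℝ) * ∏ p ∈ U.image ρ, 1 / ((p : ℕ) : ℝ) := by
  set Q : ℕ := ∏ p ∈ univ.image ρ, p with hQ
  set R : ℕ := ∏ p ∈ U.image ρ, p with hR
  have hpr : ∀ p ∈ U.image ρ, p.Prime := by
    intro p hp
    obtain ⟨x, -, rfl⟩ := mem_image.1 hp
    exact (hρ x).1
  have hR0 : 0 < R := prod_pos fun p hp => (hpr p hp).pos
  have hRQ : R ∣ Q := prod_dvd_prod_of_subset _ _ _ (image_subset_image (subset_univ U))
  have hmod : ∀ y y' : ℕ, (∀ x ∈ U, ((ρ x : ℕ) : ℤ) ∣ S * (y : ℤ) + ν x) →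
      (∀ x ∈ U, ((ρ x : ℕ) : ℤ) ∣ S * (y' : ℤ) + ν x) → y % R = y' % R := by
    intro y y' h1 h2
    have h3 : ∀ p ∈ U.image ρ, ((p : ℕ) : ℤ) ∣ (y : ℤ) - y' := by
      intro p hp
      obtain ⟨x, hx, rfl⟩ := mem_image.1 hp
      have h4 : ((ρ x : ℕ) : ℤ) ∣ (S : ℤ) * ((y : ℤ) - y') := by
        have := dvd_sub (h1 x hx) (h2 x hx)
        have e : (S : ℤ) * (y : ℤ) + ν x - (S * (y' : ℤ) + ν x) = (S : ℤ) * ((y : ℤ) - y') := by ring
        rwa [e] at this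
      have hpi : Prime ((ρ x : ℕ) : ℤ) := Nat.prime_iff_prime_int.1 (hρ x).1
      rcases hpi.dvd_or_dvd h4 with h5 | h5
      · exfalso
        have h6 := Nat.le_of_dvd (by omega) (Int.natCast_dvd_natCast.1 h5)
        have := (hρ x).2
        omega
      · exact h5
    have h7 : ((R : ℕ) : ℤ) ∣ (y : ℤ) - y' := by
      rw [hR]
      push_cast
      refine prod_dvd_of_coprime ?_ h3
      intro p hp q hq hpq
      have h8 : Nat.Coprime p q := (Nat.coprime_primes (hpr p hp) (hpr q hq)).2 hpq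
      exact Nat.isCoprime_iff_coprime.2 h8
    have h9 : (y' : ℤ) ≡ y [ZMOD R] := Int.modEq_iff_dvd.2 h7
    exact ((Int.natCast_modEq_iff).1 h9).symm
  have hcard : ((range Q).filter fun y : ℕ => ∀ x ∈ U, ((ρ x : ℕ) : ℤ) ∣ S * (y : ℤ) + ν x).card ≤ Q / R := by
    rw [← card_range (Q / R)]
    refine card_le_card_of_injOn (fun y => y / R) ?_ ?_
    · intro y hy
      have hy' := mem_filter.1 (mem_coe.1 hy)
      have h1 := mem_range.1 hy'.1
      refine mem_coe.2 (mem_range.2 ?_)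
      exact Nat.div_lt_of_lt_mul (by rw [Nat.mul_div_cancel' hRQ]; exact h1)
    · intro y hy y' hy' h
      have h1 := (mem_filter.1 (mem_coe.1 hy)).2
      have h2 := (mem_filter.1 (mem_coe.1 hy')).2
      have h3 := hmod y y' h1 h2
      have h4 : y / R = y' / R := h
      rw [← Nat.div_add_mod y R, ← Nat.div_add_mod y' R, h3, h4]
  have h10 : ((Q / R : ℕ) : ℝ) = (Q : ℝ) * ∏ p ∈ U.image ρ, 1 / ((p : ℕ) : ℝ) := by
    rw [Nat.cast_div hRQ (by exact_mod_cast hR0.ne'), hR]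
    push_cast
    rw [div_eq_mul_inv, ← prod_inv_distrib]
    simp only [one_div]
  rw [← h10]
  exact_mod_cast hcard

theorem pf_MAJ : T_MAJ := by
  intro n ρ ν S hS hρ
  classical
  set Q : ℕ := ∏ p ∈ univ.image ρ, p with hQ
  have h1 : ∀ y : ℕ, ∏ x, cp (ρ x) (S * (y : ℤ) + ν x) = ∑ U ∈ (univ : Finset (Fin n)).powerset,
      (∏ x ∈ Uᶜ, 1 / ((ρ x : ℕ) : ℝ)) *
        (if ∀ x ∈ U, ((ρ x : ℕ) : ℤ) ∣ S * (y : ℤ) + ν x then 1 else 0) := by
    intro y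
    unfold cp
    rw [prod_add]
    refine sum_congr rfl fun U _ => ?_
    rw [mul_comm, compl_eq_univ_sdiff]
    congr 1
    by_cases h : ∀ x ∈ U, ((ρ x : ℕ) : ℤ) ∣ S * (y : ℤ) + ν x
    · rw [if_pos h]
      exact prod_eq_one fun x hx => if_pos (h x hx)
    · rw [if_neg h]
      push Not at h
      obtain ⟨x, hx, hx'⟩ := h
      exact prod_eq_zero hx (if_neg hx')
  simp only [h1]
  rw [sum_comm]
  unfold EE
  rw [mul_sum]
  refine sum_le_sum fun U _ => ?_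
  rw [← mul_sum]
  have hprod0 : 0 ≤ ∏ x ∈ Uᶜ, 1 / ((ρ x : ℕ) : ℝ) := prod_nonneg fun x _ => by positivity
  have h2 : ∑ y ∈ range Q, (if ∀ x ∈ U, ((ρ x : ℕ) : ℤ) ∣ S * (y : ℤ) + ν x then (1 : ℝ) else 0) =
      (((range Q).filter fun y : ℕ => ∀ x ∈ U, ((ρ x : ℕ) : ℤ) ∣ S * (y : ℤ) + ν x).card : ℝ) := by
    rw [sum_boole]
  rw [h2]
  by_cases hc : Cons ρ ν U
  · rw [if_pos hc]
    unfold wt
    calc (∏ x ∈ Uᶜ, 1 / ((ρ x : ℕ) : ℝ)) *
        (((range Q).filter fun y : ℕ => ∀ x ∈ U, ((ρ x : ℕ) : ℤ) ∣ S * (y : ℤ) + ν x).card : ℝ)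
        ≤ (∏ x ∈ Uᶜ, 1 / ((ρ x : ℕ) : ℝ)) * ((Q : ℝ) * ∏ p ∈ U.image ρ, 1 / ((p : ℕ) : ℝ)) :=
          mul_le_mul_of_nonneg_left (count_le ρ ν S hS hρ U) hprod0
      _ = _ := by ring
  · rw [if_neg hc, mul_zero]
    unfold Cons at hc
    push Not at hc
    obtain ⟨x, hx, x', hx', he, hnd⟩ := hc
    have h3 : ((range Q).filter fun y : ℕ => ∀ x ∈ U, ((ρ x : ℕ) : ℤ) ∣ S * (y : ℤ) + ν x) = ∅ := by
      rw [filter_eq_empty_iff]
      intro y _ hall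
      apply hnd
      have h4 := hall x hx
      have h5 := hall x' hx'
      rw [← he] at h5
      have h6 := dvd_sub h4 h5
      have e : (S : ℤ) * (y : ℤ) + ν x - (S * (y : ℤ) + ν x') = ν x - ν x' := by ring
      rwa [e] at h6
    rw [h3]
    simp

end Pool.Agent.H65.XCE
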